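import Pool.Agent.Y229.RE.Stab
import Pool.Agent.Y229.GL.Glo

set_option autoImplicit false

/-! Stably nondegenerate functions: local topological zeta functions. -/

namespace Pool.Agent.Y229.RE

open Pool.Agent.H628R4.TZ Pool.Agent.H628R4.TP Pool.Agent.W425.SM
  Pool.Agent.W425.SG Pool.Agent.W422.GC Pool.Agent.W425.ND Pool.Agent.Y229.CF Pool.Agent.Y229.GL

variable {N M k : ℕ}

lemma RR.mulPS {g : MvPolynomial (Fin M) ℂ} {F : ℕ → MvPowerSeries (Fin M) ℂ}
    (hF : RR g F) (u : MvPowerSeries (Fin M) ℂ) : RR g (fun s => u * F s) := by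
  obtain ⟨L, hL⟩ := hF
  refine ⟨L.map fun x => (x.1, u * x.2.1, x.2.2), fun s => ?_⟩
  show u * F s = _
  rw [hL, ← List.sum_map_mul_left, List.map_map]
  congr 1
  refine List.map_congr_left fun x _ => ?_
  simp only [Function.comp_apply]
  ring

lemma const_aeval (φ : Fin M → MvPowerSeries (Fin M) ℂ)
    (a : MvPolynomial (Fin M) ℂ) : MvPowerSeries.constantCoeff (MvPolynomial.aeval φ a) =
      MvPolynomial.eval (fun i => MvPowerSeries.constantCoeff (φ i)) a := by
  induction a using MvPolynomial.induction_on with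
  | C c =>
    rw [← MvPolynomial.algebraMap_eq, AlgHom.commutes, MvPolynomial.algebraMap_eq,
      MvPolynomial.eval_C]
    exact MvPowerSeries.constantCoeff_C _
  | add p q hp hq => rw [map_add, map_add, map_add, hp, hq]
  | mul_X p i hp => rw [map_mul, map_mul, map_mul, hp, MvPolynomial.aeval_X, MvPolynomial.eval_X]

/-- **Formal changes of coordinates**, with a unit. -/
theorem unit_local {f g : MvPolynomial (Fin M) ℂ} {b : Polynomial ℂ} {loc : Prop}
    (hb : UnitEq loc f b) {φ : Fin M → MvPowerSeries (Fin M) ℂ} (hφ : IsCoord φ)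
    (hφ0 : loc → ∀ i, MvPowerSeries.constantCoeff (φ i) = 0)
    (hfg : (MvPolynomial.aeval φ f : MvPowerSeries (Fin M) ℂ) = (g : MvPowerSeries (Fin M) ℂ)) :
    Pool.Agent.H628R4.TP.IsLocalBFunction g b := by
  obtain ⟨a, P, ha, ha', hP⟩ := hb
  have hu : IsUnit (MvPolynomial.aeval φ a : MvPowerSeries (Fin M) ℂ) := by
    rw [MvPowerSeries.isUnit_iff_constantCoeff]
    by_cases hl : loc
    · rw [const_aeval]
      have h1 : (fun i => MvPowerSeries.constantCoeff (φ i)) = (0 : Fin M → ℂ) := by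
        funext i
        exact hφ0 hl i
      rw [h1, MvPolynomial.eval_zero, ha]
      exact isUnit_one
    · rw [ha' hl, map_one, map_one]
      exact isUnit_one
  obtain ⟨u, hu'⟩ := hu
  have h1 : RR g (fun s => ∑ m ∈ P.support, ((s : ℂ) ^ m) • (MvPolynomial.aeval φ
      (((P m : weylS (Fin M)) : Module.End ℂ (MvPolynomial (Fin M) ℂ)) (f ^ (s + 1))) :
        MvPowerSeries (Fin M) ℂ)) := by
    refine GL.RR.sum _ _ fun m _ => ?_
    obtain ⟨P', h2, h3⟩ := good_all hφ _ (P m).2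
    obtain ⟨L, hL⟩ := h3 _ SS.id
    refine ⟨L.map fun x => (m, x.1, x.2), fun s => ?_⟩
    show ((s : ℂ) ^ m) • (MvPolynomial.aeval φ (((P m : weylS (Fin M)) :
      Module.End ℂ (MvPolynomial (Fin M) ℂ)) (f ^ (s + 1))) : MvPowerSeries (Fin M) ℂ) = _
    rw [h2, map_pow, hfg, List.map_map, ← MvPolynomial.coe_pow]
    have h4 := hL (g ^ (s + 1))
    rw [LinearMap.comp_apply, LinearMap.id_apply] at h4
    rw [h4, MvPowerSeries.smul_eq_C_mul, ← List.sum_map_mul_left]
    rfl
  obtain ⟨L, hL⟩ := RR.mulPS h1 ((u⁻¹ : (MvPowerSeries (Fin M) ℂ)ˣ) : MvPowerSeries (Fin M) ℂ)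
  refine ⟨L.length, fun i => (L.get i).1, fun i => (L.get i).2.1, fun i => (L.get i).2.2,
    fun s => ?_⟩
  have h5 := congrArg (fun q => (MvPolynomial.aeval φ q : MvPowerSeries (Fin M) ℂ)) (hP s)
  rw [map_mul, map_mul, map_pow, hfg, ← MvPolynomial.algebraMap_eq, AlgHom.commutes,
    Finsupp.sum, map_sum] at h5
  have h6 := hL s
  simp only [map_smul] at h5
  rw [MvPolynomial.coe_pow]
  have h7 : (algebraMap ℂ (MvPowerSeries (Fin M) ℂ)) (Polynomial.eval (s : ℂ) b) =
      MvPowerSeries.C (Polynomial.eval (s : ℂ) b) := rfl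
  have h8 : (((u⁻¹ : (MvPowerSeries (Fin M) ℂ)ˣ) : MvPowerSeries (Fin M) ℂ)) *
      ((algebraMap ℂ (MvPowerSeries (Fin M) ℂ)) (Polynomial.eval (s : ℂ) b) *
        (MvPolynomial.aeval φ a : MvPowerSeries (Fin M) ℂ) * (g : MvPowerSeries (Fin M) ℂ) ^ s) =
      MvPowerSeries.C (Polynomial.eval (s : ℂ) b) * (g : MvPowerSeries (Fin M) ℂ) ^ s := by
    rw [← hu', h7]
    have h9 := Units.inv_mul u
    linear_combination (MvPowerSeries.C (Polynomial.eval (s : ℂ) b) *
      (g : MvPowerSeries (Fin M) ℂ) ^ s) * h9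
  rw [← h8, h5]
  refine h6.trans ?_
  rw [← List.sum_ofFn]
  congr 1
  conv_lhs => rw [← List.ofFn_get L, List.map_ofFn]
  rfl

/-- `f + ∑ y_i z_i` -/
noncomputable def stab (f : MvPolynomial (Fin N) ℂ) (k : ℕ) :
    MvPolynomial (Fin (N + (k + k))) ℂ :=
  MvPolynomial.rename (Fin.castAdd (k + k)) f +
    ∑ i : Fin k, MvPolynomial.X (Fin.natAdd N (Fin.castAdd k i)) *
      MvPolynomial.X (Fin.natAdd N (Fin.natAdd k i))

lemma sep_stab : Sep (N := N) (Fin.castAdd (k + k)) (fun i : Fin k => Fin.natAdd N (Fin.castAdd k i))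
    (fun i : Fin k => Fin.natAdd N (Fin.natAdd k i)) where
  i1 := Fin.castAdd_injective _ _
  i2 := fun i j h => by
    have := congrArg Fin.val h
    simp at this
    exact Fin.ext this
  i3 := fun i j h => by
    have := congrArg Fin.val h
    simp at this
    exact Fin.ext this
  n1 := fun i j h => by
    have := congrArg Fin.val h
    simp at this
    omega
  n2 := fun i j h => by
    have := congrArg Fin.val h
    simp at this
    omega
  n3 := fun i j h => by
    have := congrArg Fin.val h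
    simp at this
    omega

theorem unitEq_stab' (loc : Prop) (f : MvPolynomial (Fin N) ℂ) (b : Polynomial ℂ)
    (hb : UnitEq loc f b) (k : ℕ) : UnitEq loc (stab f k)
      ((Polynomial.X + 1) * b.comp (Polynomial.X + Polynomial.C (k : ℂ))) :=
  unitEq_stab sep_stab loc f b hb

open Polynomial

lemma comp_nzd (k : ℕ) : nonZeroDivisors ℂ[X] ≤
    (nonZeroDivisors ℂ[X]).comap (Polynomial.compRingHom (X - C (k : ℂ))) := by
  intro p hp
  rw [Submonoid.mem_comap, mem_nonZeroDivisors_iff_ne_zero]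
  intro h0
  refine (mem_nonZeroDivisors_iff_ne_zero.1 hp) ?_
  have := congrArg (fun q : ℂ[X] => q.comp (X + C (k : ℂ))) h0
  simpa [Polynomial.comp_assoc] using this

/-- `Z(s) ↦ Z(s - k)` -/
noncomputable def shiftZ (k : ℕ) : RatFunc ℂ →+* RatFunc ℂ :=
  RatFunc.mapRingHom (Polynomial.compRingHom (X - C (k : ℂ))) (comp_nzd k)

lemma shiftZ_poly (k : ℕ) (P : ℂ[X]) : shiftZ k (algebraMap ℂ[X] (RatFunc ℂ) P) =
    algebraMap ℂ[X] (RatFunc ℂ) (P.comp (X - C (k : ℂ))) := by
  unfold shiftZ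
  rw [RatFunc.coe_mapRingHom_eq_coe_map]
  have h := RatFunc.map_apply_div (Polynomial.compRingHom (X - C (k : ℂ))) (comp_nzd k) P 1
  simpa using h

lemma reg_shift {s0 : ℂ} {k : ℕ} {Z : RatFunc ℂ} (h : Reg (s0 - k) Z) : Reg s0 (shiftZ k Z) := by
  obtain ⟨Q, P, h1, h2⟩ := h
  refine ⟨Q.comp (X - C (k : ℂ)), P.comp (X - C (k : ℂ)), ?_, ?_⟩
  · rwa [eval_comp, eval_sub, eval_X, eval_C]
  · rw [← shiftZ_poly, ← shiftZ_poly, ← h2, map_mul]

/-- The zeta function of `f` in terms of that of `f + ∑_{i ≤ k} y_i z_i`: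
`1 - Z_f(s) = (1 - Z(s - k)) s (s - k + 1) / ((s - k) (s + 1))` for `e = 1` and
`Z_f(s) = Z(s - k)` for `e ≥ 2`. -/
noncomputable def unstab (k e : ℕ) (Z : RatFunc ℂ) : RatFunc ℂ :=
  if e = 1 then 1 - (1 - shiftZ k Z) * (RatFunc.X * (RatFunc.X - RatFunc.C (k : ℂ) + 1)) *
    ((RatFunc.X - RatFunc.C (k : ℂ)) * (RatFunc.X + 1))⁻¹
  else shiftZ k Z

lemma reg_unstab {s0 : ℂ} {k e : ℕ} {Z : RatFunc ℂ} (h : Reg (s0 - k) Z) (h1 : s0 ≠ -1)
    (h2 : s0 ≠ k) : Reg s0 (unstab k e Z) := by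
  unfold unstab
  have hs := reg_shift h
  have hone : Reg s0 (1 : RatFunc ℂ) := by
    rw [← map_one (algebraMap ℂ[X] (RatFunc ℂ))]
    exact Reg.poly _ _
  have hneg : ∀ {W : RatFunc ℂ}, Reg s0 W → Reg s0 (-W) := by
    intro W hW
    have h3 := (Reg.poly s0 (C (-1))).mul hW
    have h4 : (algebraMap ℂ[X] (RatFunc ℂ)) (C (-1)) * W = -W := by
      rw [C_neg, C_1, map_neg, map_one, neg_one_mul]
    rwa [h4] at h3
  split_ifs with he
  · rw [sub_eq_add_neg]
    refine hone.add (hneg ?_)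
    refine Reg.mul (Reg.mul ?_ ?_) ?_
    · rw [sub_eq_add_neg]
      exact hone.add (hneg hs)
    · have e1 : (RatFunc.X * (RatFunc.X - RatFunc.C (k : ℂ) + 1) : RatFunc ℂ) =
          algebraMap ℂ[X] (RatFunc ℂ) (X * (X - C (k : ℂ) + 1)) := by
        rw [map_mul, map_add, map_sub, map_one, RatFunc.algebraMap_X, RatFunc.algebraMap_C]
      rw [e1]
      exact Reg.poly _ _
    · have e1 : ((RatFunc.X - RatFunc.C (k : ℂ)) * (RatFunc.X + 1) : RatFunc ℂ) =
          algebraMap ℂ[X] (RatFunc ℂ) ((X - C (k : ℂ)) * (X + 1)) := by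
        rw [map_mul, map_add, map_sub, map_one, RatFunc.algebraMap_X, RatFunc.algebraMap_C]
      rw [e1]
      refine Reg.inv ?_
      rw [eval_mul, eval_sub, eval_add, eval_X, eval_C, eval_one]
      refine mul_ne_zero (sub_ne_zero.2 h2) ?_
      intro h0
      exact h1 (by linear_combination h0)
  · exact hs

/-- a functional equation of `f` at the origin -/
lemma unitEq_of_local {f : MvPolynomial (Fin N) ℂ} (hf0 : f ≠ 0)
    (hf : MvPolynomial.constantCoeff f = 0) {b : ℂ[X]}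
    (hb : Pool.Agent.H628R4.TP.IsLocalBFunction f b) : b.eval (-1) = 0 ∧ UnitEq True f b := by
  obtain ⟨h1, c, P, hc, hP⟩ := Pool.Agent.W368.SL.taskL1 f b hf0 hf (Pool.Agent.W425.SL.toSL hb)
  exact ⟨h1, c, P, hc, fun h => absurd trivial h, hP⟩

/-- regularity away from the roots, for a stably nondegenerate function -/
lemma stab_reg {loc : Prop} (f : MvPolynomial (Fin N) ℂ) (b : ℂ[X]) (hb0 : b ≠ 0)
    (hb1 : b.eval (-1) = 0) (hb : UnitEq loc f b) (k : ℕ)
    (φ : Fin (N + (k + k)) → MvPowerSeries (Fin (N + (k + k))) ℂ) (hφ : IsCoord φ)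
    (hφ0 : loc → ∀ i, MvPowerSeries.constantCoeff (φ i) = 0) {r : ℕ} (hr : 1 ≤ r)
    (v : Fin r → Fin (N + (k + k)) → ℕ) (a : Fin r → ℂ)
    (hv : Function.Injective v) (hv0 : ∀ j, v j ≠ 0) (hnd : NondegC v a)
    (hg : (MvPolynomial.aeval φ (stab f k) : MvPowerSeries (Fin (N + (k + k))) ℂ) =
      ((sparse v a : MvPolynomial (Fin (N + (k + k))) ℂ) :
        MvPowerSeries (Fin (N + (k + k))) ℂ))
    (R : SmoothFan (N + (k + k))) (hR : Principal v R) (e : ℕ) (he : 1 ≤ e) (s0 : ℂ)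
    (hre : s0.re < 0) (hs : ∀ i : ℕ, b.eval (s0 - i) ≠ 0) :
    Reg s0 (unstab k e (topZetaTwistedLocal v R e)) := by
  have h1 : s0 ≠ -1 := by
    rintro rfl
    have h2 := hs 0
    rw [Nat.cast_zero, sub_zero] at h2
    exact h2 hb1
  refine reg_unstab ?_ h1 ?_
  · refine tw_reg hr v a hv hv0 hnd R hR ((X + 1) * b.comp (X + C (k : ℂ))) ?_
      (unit_local (unitEq_stab' loc f b hb k) hφ hφ0 hg) e he _ fun i => ?_
    · refine mul_ne_zero ?_ ?_
      · intro h0
        have := congrArg (Polynomial.eval 0) h0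
        simp at this
      · intro h0
        apply hb0
        have := congrArg (fun q : ℂ[X] => q.comp (X - C (k : ℂ))) h0
        simpa [Polynomial.comp_assoc] using this
    · rw [eval_mul, eval_comp, eval_add, eval_add, eval_X, eval_C, eval_one]
      refine mul_ne_zero ?_ ?_
      · intro h0
        have h2 : s0 = (k : ℂ) + i - 1 := by linear_combination h0
        rcases Nat.eq_zero_or_pos (k + i) with h3 | h3
        · have h4 : (k : ℂ) + i = 0 := by exact_mod_cast congrArg (Nat.cast : ℕ → ℂ) h3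
          apply h1
          rw [h2, h4]
          ring
        · have h5 : s0.re = (k : ℝ) + i - 1 := by rw [h2]; simp
          have h6 : (1 : ℝ) ≤ (k : ℝ) + i := by exact_mod_cast h3
          linarith
      · have h7 : s0 - (k : ℂ) - (i : ℂ) + (k : ℂ) = s0 - i := by ring
        rw [h7]
        exact hs i
  · rintro rfl
    rw [Complex.natCast_re] at hre
    have : (0 : ℝ) ≤ k := Nat.cast_nonneg k
    linarith

end Pool.Agent.Y229.RE
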