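import Pool.Agent.Y229.RE.Emb

set_option autoImplicit false

/-! Functions on smooth complete intersections: the change of coordinates. -/

namespace Pool.Agent.Y229.RE

open MvPolynomial
open Pool.Agent.W749.JI (fam)
open Pool.Agent.W425.SM (sparse)
open Pool.Agent.Y229.CF (NondegIC NondegC)
open Pool.Agent.Y229.GL (IsCoord)

variable {N k r : ℕ}

/-- the variables `x, z` among the variables `x, y, z` -/
def emb (i : Fin (N + k)) : Fin (N + (k + k)) := XZ id i

lemma emb_l (i : Fin N) : emb (Fin.castAdd k i) = xv k i := XZ_l _ i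
lemma emb_r (i : Fin k) : emb (Fin.natAdd N i) = zv N i := XZ_r _ i

lemma xz_ne (i : Fin N) (j : Fin k) : xv k i ≠ zv N j := sep_stab.n2 i j
lemma xy_ne (i : Fin N) (j : Fin k) : xv k i ≠ yv N j := sep_stab.n1 i j
lemma yz_ne (i j : Fin k) : yv N i ≠ zv N j := sep_stab.n3 i j
lemma x_inj : Function.Injective (xv k : Fin N → _) := sep_stab.i1
lemma y_inj : Function.Injective (yv N : Fin k → _) := sep_stab.i2
lemma z_inj : Function.Injective (zv N : Fin k → _) := sep_stab.i3

lemma emb_inj : Function.Injective (emb : Fin (N + k) → _) := by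
  intro a b
  refine Fin.addCases (fun i => ?_) (fun i => ?_) a <;>
    refine Fin.addCases (fun j => ?_) (fun j => ?_) b <;> intro h
  · rw [emb_l, emb_l] at h
    rw [x_inj h]
  · rw [emb_l, emb_r] at h
    exact absurd h (xz_ne i j)
  · rw [emb_l, emb_r] at h
    exact absurd h.symm (xz_ne j i)
  · rw [emb_r, emb_r] at h
    rw [z_inj h]

lemma emb_ne_y (i : Fin (N + k)) (j : Fin k) : emb i ≠ yv N j := by
  refine Fin.addCases (fun i => ?_) (fun i => ?_) i
  · rw [emb_l]; exact xy_ne i j
  · rw [emb_r]; exact (yz_ne j i).symm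

/-- the change of coordinates `z_i ↦ l_i`, `y_i ↦ y_i + q_i` -/
noncomputable def Phi (q l : Fin k → MvPolynomial (Fin (N + k)) ℂ) :
    Fin (N + (k + k)) → MvPolynomial (Fin (N + (k + k))) ℂ :=
  Fin.append (fun i => X (xv k i)) (Fin.append (fun i => X (yv N i) + rename emb (q i))
    (fun i => rename emb (l i)))

lemma Phi_x (q l : Fin k → MvPolynomial (Fin (N + k)) ℂ) (i : Fin N) :
    Phi q l (xv k i) = X (xv k i) := by
  unfold Phi xv
  rw [Fin.append_left]

lemma Phi_y (q l : Fin k → MvPolynomial (Fin (N + k)) ℂ) (i : Fin k) :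
    Phi q l (yv N i) = X (yv N i) + rename emb (q i) := by
  unfold Phi yv
  rw [Fin.append_right, Fin.append_left]

lemma Phi_z (q l : Fin k → MvPolynomial (Fin (N + k)) ℂ) (i : Fin k) :
    Phi q l (zv N i) = rename emb (l i) := by
  unfold Phi zv
  rw [Fin.append_right, Fin.append_right]

lemma coe_aeval {M : ℕ} (Φ : Fin M → MvPolynomial (Fin M) ℂ) (f : MvPolynomial (Fin M) ℂ) :
    (aeval (fun i => ((Φ i : MvPolynomial (Fin M) ℂ) : MvPowerSeries (Fin M) ℂ)) f :
      MvPowerSeries (Fin M) ℂ) = ((aeval Φ f : MvPolynomial (Fin M) ℂ) :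
        MvPowerSeries (Fin M) ℂ) := by
  have h2 := MvPolynomial.comp_aeval_apply (R := ℂ) (f := Φ)
    (φ := MvPolynomial.coeToMvPowerSeries.algHom ℂ (σ := Fin M) (R := ℂ)) f
  simp only [MvPolynomial.coeToMvPowerSeries.algHom_apply, Algebra.algebraMap_self,
    MvPowerSeries.map_id, RingHom.id_apply] at h2
  exact h2.symm

lemma aeval_stab (f : MvPolynomial (Fin N) ℂ) (q l : Fin k → MvPolynomial (Fin (N + k)) ℂ) :
    aeval (Phi q l) (stab f k) = rename emb (rename (Fin.castAdd k) f + ∑ i, q i * l i) +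
      ∑ i, X (yv N i) * rename emb (l i) := by
  unfold stab
  rw [map_add, map_sum, map_add, map_sum, aeval_rename, rename_rename]
  have h1 : aeval (Phi q l ∘ Fin.castAdd (k + k)) f = rename (emb ∘ Fin.castAdd k) f := by
    have h2 : Phi q l ∘ Fin.castAdd (k + k) = X ∘ (emb ∘ Fin.castAdd k) := by
      funext i
      rw [Function.comp_apply, Function.comp_apply, Function.comp_apply,
        show Phi q l (Fin.castAdd (k + k) i) = X (xv k i) from Phi_x q l i, emb_l]
    rw [h2]
    have h3 := aeval_rename (R := ℂ) (emb ∘ Fin.castAdd k) X f (S := MvPolynomial (Fin (N + (k + k))) ℂ)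
    rw [aeval_X_left_apply] at h3
    exact h3.symm
  rw [h1, add_assoc, ← Finset.sum_add_distrib]
  congr 1
  refine Finset.sum_congr rfl fun i _ => ?_
  rw [map_mul, aeval_X, aeval_X,
    show Phi q l (Fin.natAdd N (Fin.castAdd k i)) = X (yv N i) + rename emb (q i) from
      Phi_y q l i,
    show Phi q l (Fin.natAdd N (Fin.natAdd k i)) = rename emb (l i) from Phi_z q l i, map_mul]
  ring

lemma sparse_ex (π : Fin r → Fin (k + 1)) (m : Fin r → Fin (N + k) → ℕ) (c : Fin r → ℂ) :
    sparse (ex π m) c = rename emb (fam π m c 0) +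
      ∑ i : Fin k, X (yv N i) * rename emb (fam π m c i.succ) := by
  classical
  have h0 : ∀ i, rename emb (fam π m c i) =
      ∑ j, if π j = i then C (c j) * ∏ v, X (emb v) ^ m j v else 0 := by
    intro i
    unfold fam
    rw [map_sum, Finset.sum_filter]
    refine Finset.sum_congr rfl fun j _ => ?_
    split_ifs
    · rw [map_mul, rename_C, map_prod]
      congr 1
      exact Finset.prod_congr rfl fun v _ => by rw [map_pow, rename_X]
    · rfl
  have h1 : sparse (ex π m) c = ∑ j, WY 1 X (π j) * (C (c j) * ∏ v, X (emb v) ^ m j v) := by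
    unfold sparse
    refine Finset.sum_congr rfl fun j _ => ?_
    rw [prod_ex]
    have h2 : ∀ v, XZ (X : Fin (N + (k + k)) → MvPolynomial (Fin (N + (k + k))) ℂ) v =
        X (emb v) := by
      intro v
      refine Fin.addCases (fun i => ?_) (fun i => ?_) v
      · rw [XZ_l, emb_l]
      · rw [XZ_r, emb_r]
    rw [Finset.prod_congr rfl fun v _ => by rw [h2 v]]
    ring
  rw [h1, h0 0]
  have h3 : ∀ i : Fin k, X (yv N i) * rename emb (fam π m c i.succ) = ∑ j,
      if π j = i.succ then X (yv N i) * (C (c j) * ∏ v, X (emb v) ^ m j v) else 0 := by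
    intro i
    rw [h0 i.succ, Finset.mul_sum]
    refine Finset.sum_congr rfl fun j _ => ?_
    split_ifs
    · rfl
    · rw [mul_zero]
  rw [Finset.sum_congr rfl fun i _ => h3 i, Finset.sum_comm, ← Finset.sum_add_distrib]
  refine Finset.sum_congr rfl fun j _ => ?_
  rcases Fin.eq_zero_or_eq_succ (π j) with h | ⟨i0, h⟩
  · rw [h, if_pos rfl, Finset.sum_eq_zero, add_zero]
    · show (1 : MvPolynomial (Fin (N + (k + k))) ℂ) * _ = _
      rw [one_mul]
    · intro i _
      rw [if_neg (Fin.succ_ne_zero i).symm]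
  · rw [h, if_neg (Fin.succ_ne_zero i0), zero_add, Finset.sum_eq_single i0]
    · rw [if_pos rfl]
      rfl
    · intro i _ hi
      rw [if_neg (fun h' => hi (Fin.succ_injective _ h'.symm))]
    · intro h'
      exact absurd (Finset.mem_univ _) h'

lemma coeff_rn (p : MvPolynomial (Fin (N + k)) ℂ) (i : Fin (N + k)) :
    coeff (Finsupp.single (emb i) 1) (rename emb p) = coeff (Finsupp.single i 1) p := by
  have h := coeff_rename_mapDomain (emb : Fin (N + k) → _) emb_inj p (Finsupp.single i 1)
  rwa [Finsupp.mapDomain_single] at h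

lemma coeff_rn_y (p : MvPolynomial (Fin (N + k)) ℂ) (j : Fin k) :
    coeff (Finsupp.single (yv N j) 1) (rename emb p) = 0 := by
  refine coeff_rename_eq_zero _ _ _ fun u hu => ?_
  exfalso
  have h1 := DFunLike.congr_fun hu (yv N j)
  rw [Finsupp.single_eq_same, Finsupp.mapDomain_of_notMem_range _ _ (by
    rintro ⟨i, hi⟩
    exact emb_ne_y i j hi)] at h1
  exact zero_ne_one h1

/-- the change of coordinates is invertible at the origin -/
lemma coord_Phi (q l : Fin k → MvPolynomial (Fin (N + k)) ℂ)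
    (hdet : (Matrix.of fun i j => coeff (Finsupp.single (Fin.natAdd N j) 1) (l i)).det ≠ 0) :
    IsCoord (fun i => ((Phi q l i : MvPolynomial (Fin (N + (k + k))) ℂ) :
      MvPowerSeries (Fin (N + (k + k))) ℂ)) := by
  classical
  unfold IsCoord
  intro h0
  obtain ⟨u, hu, hMu⟩ := Matrix.exists_mulVec_eq_zero_iff.2 h0
  have hrow : ∀ i, ∑ j, coeff (Finsupp.single j 1) (Phi q l i) * u j = 0 := by
    intro i
    have h1 := congrFun hMu i
    rw [Matrix.mulVec, dotProduct] at h1
    simp only [Matrix.of_apply, coeff_coe, Pi.zero_apply] at h1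
    exact h1
  have hsplit : ∀ (F : Fin (N + (k + k)) → ℂ), ∑ j, F j = ∑ j : Fin N, F (xv k j) +
      (∑ j : Fin k, F (yv N j) + ∑ j : Fin k, F (zv N j)) := by
    intro F
    rw [Fin.sum_univ_add, Fin.sum_univ_add]
    rfl
  have hXX : ∀ i j : Fin (N + (k + k)), coeff (Finsupp.single j 1)
      (X i : MvPolynomial (Fin (N + (k + k))) ℂ) = if i = j then 1 else 0 := by
    intro i j
    rw [coeff_X]
    by_cases h : i = j
    · subst h
      simp
    · rw [if_neg h, if_neg]
      intro h2
      exact h (Finsupp.single_left_injective one_ne_zero h2)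
  have hx : ∀ i : Fin N, u (xv k i) = 0 := by
    intro i
    have h1 := hrow (xv k i)
    rw [Phi_x, Finset.sum_eq_single (xv k i)] at h1
    · rwa [hXX, if_pos rfl, one_mul] at h1
    · intro j _ hj
      rw [hXX, if_neg hj.symm, zero_mul]
    · intro h
      exact absurd (Finset.mem_univ _) h
  have hz : ∀ i : Fin k, u (zv N i) = 0 := by
    by_contra hcon
    push Not at hcon
    obtain ⟨i0, hi0⟩ := hcon
    apply hdet
    refine Matrix.exists_mulVec_eq_zero_iff.1 ⟨fun i => u (zv N i), ?_, ?_⟩
    · intro h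
      exact hi0 (congrFun h i0)
    · funext i
      rw [Matrix.mulVec, dotProduct]
      simp only [Matrix.of_apply, Pi.zero_apply]
      have h1 := hrow (zv N i)
      rw [Phi_z, hsplit] at h1
      simp only [hx, mul_zero, Finset.sum_const_zero, zero_add, coeff_rn_y, zero_mul] at h1
      rw [← h1]
      refine Finset.sum_congr rfl fun j _ => ?_
      rw [← emb_r j, coeff_rn]
  have hy : ∀ i : Fin k, u (yv N i) = 0 := by
    intro i
    have h1 := hrow (yv N i)
    rw [Phi_y, hsplit] at h1
    simp only [hx, hz, mul_zero, Finset.sum_const_zero, zero_add, add_zero, coeff_add,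
      coeff_rn_y, hXX] at h1
    rw [Finset.sum_eq_single i] at h1
    · rwa [if_pos rfl, one_mul] at h1
    · intro j _ hj
      rw [if_neg (fun h => hj (y_inj h).symm), zero_mul]
    · intro h
      exact absurd (Finset.mem_univ _) h
  apply hu
  funext i
  rw [Pi.zero_apply]
  refine Fin.addCases (fun i => hx i) (fun i => ?_) i
  exact Fin.addCases (fun i => hy i) (fun i => hz i) i

lemma Phi_zero (q l : Fin k → MvPolynomial (Fin (N + k)) ℂ)
    (hq : ∀ i, constantCoeff (q i) = 0) (hl : ∀ i, constantCoeff (l i) = 0) (i) :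
    MvPowerSeries.constantCoeff ((Phi q l i : MvPolynomial (Fin (N + (k + k))) ℂ) :
      MvPowerSeries (Fin (N + (k + k))) ℂ) = 0 := by
  have h0 : ∀ p : MvPolynomial (Fin (N + (k + k))) ℂ, MvPowerSeries.constantCoeff
      (p : MvPowerSeries (Fin (N + (k + k))) ℂ) = constantCoeff p := by
    intro p
    rw [← MvPowerSeries.coeff_zero_eq_constantCoeff_apply, coeff_coe, constantCoeff_eq]
  rw [h0]
  refine Fin.addCases (fun i => ?_) (fun i => ?_) i
  · rw [show Phi q l (Fin.castAdd (k + k) i) = X (xv k i) from Phi_x q l i, constantCoeff_X]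
  · refine Fin.addCases (fun i => ?_) (fun i => ?_) i
    · rw [show Phi q l (Fin.natAdd N (Fin.castAdd k i)) = X (yv N i) + rename emb (q i) from
        Phi_y q l i, map_add, constantCoeff_X, constantCoeff_rename, hq, add_zero]
    · rw [show Phi q l (Fin.natAdd N (Fin.natAdd k i)) = rename emb (l i) from Phi_z q l i,
        constantCoeff_rename, hl]

lemma ex_inj (π : Fin r → Fin (k + 1)) (m : Fin r → Fin (N + k) → ℕ)
    (h : ∀ j j', π j = π j' → m j = m j' → j = j') : Function.Injective (ex π m) := by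
  intro j j' hjj
  have h1 : π j = π j' := by
    rcases Fin.eq_zero_or_eq_succ (π j) with h0 | ⟨i, h0⟩
    · rcases Fin.eq_zero_or_eq_succ (π j') with h0' | ⟨i, h0'⟩
      · rw [h0, h0']
      · have h2 := congrFun hjj (yv N i)
        rw [ex_y, ex_y, if_pos h0', if_neg (by rw [h0]; exact (Fin.succ_ne_zero i).symm)] at h2
        exact absurd h2 zero_ne_one
    · have h2 := congrFun hjj (yv N i)
      rw [ex_y, ex_y, if_pos h0] at h2
      by_cases h3 : π j' = i.succ
      · rw [h0, h3]
      · rw [if_neg h3] at h2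
        exact absurd h2 one_ne_zero
  refine h j j' h1 ?_
  funext v
  refine Fin.addCases (fun i => ?_) (fun i => ?_) v
  · rw [← ex_x π m j i, ← ex_x π m j' i, hjj]
  · rw [← ex_z π m j i, ← ex_z π m j' i, hjj]

lemma ex_ne_zero (π : Fin r → Fin (k + 1)) (m : Fin r → Fin (N + k) → ℕ)
    (h : ∀ j, m j ≠ 0) (j : Fin r) : ex π m j ≠ 0 := by
  intro h0
  apply h j
  funext v
  refine Fin.addCases (fun i => ?_) (fun i => ?_) v
  · rw [← ex_x π m j i, h0]; rfl
  · rw [← ex_z π m j i, h0]; rfl

end Pool.Agent.Y229.RE
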