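import Pool.Agent.Y229.RE.Emb2

set_option autoImplicit false

/-! Stably nondegenerate functions: the main theorems. -/

namespace Pool.Agent.Y229.RE

open Pool.Agent.H628R4.TZ Pool.Agent.H628R4.TP Pool.Agent.W425.SM
  Pool.Agent.W425.SG Pool.Agent.W422.GC Pool.Agent.W425.ND Pool.Agent.Y229.CF Pool.Agent.Y229.GL
open Pool.Agent.W749.JI (fam)

variable {N k r : ℕ}

/-- `f` is stably nondegenerate, with the exponents `v`: the polynomial
`f(x) + y_1 z_1 + ⋯ + y_k z_k` (`stab f k`, in the variables `x`, `y`, `z`) becomes in suitable formal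
coordinates `φ` at the origin a polynomial `∑_j a_j x ^ (v_j)` which is nondegenerate with respect to
the compact faces of its Newton polyhedron. -/
def StabNondeg (f : MvPolynomial (Fin N) ℂ) (k : ℕ) (v : Fin r → Fin (N + (k + k)) → ℕ) : Prop :=
  Function.Injective v ∧ (∀ j, v j ≠ 0) ∧ ∃ (a : Fin r → ℂ)
    (φ : Fin (N + (k + k)) → MvPowerSeries (Fin (N + (k + k))) ℂ), IsCoord φ ∧
    (∀ i, MvPowerSeries.constantCoeff (φ i) = 0) ∧ NondegC v a ∧
    (MvPolynomial.aeval φ (stab f k) : MvPowerSeries (Fin (N + (k + k))) ℂ) =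
      ((sparse v a : MvPolynomial (Fin (N + (k + k))) ℂ) : MvPowerSeries (Fin (N + (k + k))) ℂ)

/-- **Criterion: functions on smooth complete intersections.** -/
theorem stab_of_emb (hr : 1 ≤ r) (π : Fin r → Fin (k + 1)) (m : Fin r → Fin (N + k) → ℕ)
    (hinj : ∀ j j', π j = π j' → m j = m j' → j = j') (hm : ∀ j, m j ≠ 0) (c : Fin r → ℂ)
    (hnd : NondegIC π m c)
    (hdet : (Matrix.of fun i j : Fin k => MvPolynomial.coeff (Finsupp.single (Fin.natAdd N j) 1)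
      (fam π m c i.succ)).det ≠ 0)
    (f : MvPolynomial (Fin N) ℂ) (q : Fin k → MvPolynomial (Fin (N + k)) ℂ)
    (hq : ∀ i, MvPolynomial.constantCoeff (q i) = 0)
    (hF : fam π m c 0 = MvPolynomial.rename (Fin.castAdd k) f + ∑ i, q i * fam π m c i.succ) :
    StabNondeg f k (ex π m) := by
  refine ⟨ex_inj π m hinj, ex_ne_zero π m hm, c, fun i => ((Phi q (fun i => fam π m c i.succ) i :
    MvPolynomial (Fin (N + (k + k))) ℂ) : MvPowerSeries (Fin (N + (k + k))) ℂ),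
    coord_Phi _ _ hdet, Phi_zero _ _ hq fun i => ?_, embC π m c hr hnd, ?_⟩
  · unfold fam
    rw [map_sum]
    refine Finset.sum_eq_zero fun j _ => ?_
    rw [map_mul, map_prod]
    obtain ⟨v, hv⟩ : ∃ v, m j v ≠ 0 := by
      by_contra hcon
      push Not at hcon
      exact hm j (funext hcon)
    rw [Finset.prod_eq_zero (Finset.mem_univ v), mul_zero]
    rw [map_pow, MvPolynomial.constantCoeff_X, zero_pow hv]
  · rw [coe_aeval, aeval_stab, sparse_ex, hF]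

/-- **The local theorem.** -/
theorem local_stab (f : MvPolynomial (Fin N) ℂ) (hf0 : f ≠ 0)
    (hf : MvPolynomial.constantCoeff f = 0) (b : Polynomial ℂ) (hb0 : b ≠ 0)
    (hb : Pool.Agent.H628R4.TP.IsLocalBFunction f b) (k : ℕ) (hr : 1 ≤ r)
    (v : Fin r → Fin (N + (k + k)) → ℕ) (hv : StabNondeg f k v)
    (R : SmoothFan (N + (k + k))) (hR : Principal v R) (e : ℕ) (he : 1 ≤ e) (s0 : ℂ)
    (hre : s0.re < 0) (hs : ∀ i : ℕ, b.eval (s0 - i) ≠ 0) :
    Reg s0 (unstab k e (topZetaTwistedLocal v R e)) := by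
  obtain ⟨hv1, hv0, a, φ, hφ, hφ0, hnd, hg⟩ := hv
  obtain ⟨hb1, hU⟩ := unitEq_of_local hf0 hf hb
  exact stab_reg f b hb0 hb1 hU k φ hφ (fun _ => hφ0) hr v a hv1 hv0 hnd hg R hR e he s0 hre hs

/-- **Finitely many germs.** -/
theorem germs_stab {m : ℕ} (f : Fin m → MvPolynomial (Fin N) ℂ) (hf0 : ∀ t, f t ≠ 0)
    (hf : ∀ t, MvPolynomial.constantCoeff (f t) = 0) (b : Fin m → Polynomial ℂ)
    (hb0 : ∀ t, b t ≠ 0) (hb : ∀ t, Pool.Agent.H628R4.TP.IsLocalBFunction (f t) (b t))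
    (k r : Fin m → ℕ) (hr : ∀ t, 1 ≤ r t) (v : ∀ t, Fin (r t) → Fin (N + (k t + k t)) → ℕ)
    (hv : ∀ t, StabNondeg (f t) (k t) (v t))
    (R : ∀ t, SmoothFan (N + (k t + k t))) (hR : ∀ t, Principal (v t) (R t)) (e : ℕ)
    (he : 1 ≤ e) (c c' : ℤ) (χ : Fin m → ℤ) (s0 : ℂ) (hre : s0.re < 0)
    (hs : (glue e c c' χ fun t => unstab (k t) e
      (topZetaTwistedLocal (v t) (R t) e)).denom.eval s0 = 0) :
    (e = 1 ∧ s0 = -1) ∨ ∃ t, ∃ i : ℕ, (b t).eval (s0 - i) = 0 := by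
  by_contra hcon
  push Not at hcon
  refine (reg_glue e c c' χ _ s0 (fun h h' => hcon.1 h h') fun t => ?_).denom hs
  exact local_stab (f t) (hf0 t) (hf t) (b t) (hb0 t) (hb t) (k t) (hr t) (v t) (hv t) (R t)
    (hR t) e he s0 hre (hcon.2 t)

/-- **Polynomials on affine space.** -/
theorem global_stab {m : ℕ} (f : MvPolynomial (Fin N) ℂ) (hf : f.totalDegree ≠ 0)
    (b : Polynomial ℂ) (hb0 : b ≠ 0) (hb : IsBFunction f b) (k : Fin m → ℕ)
    (φ : ∀ t, Fin (N + (k t + k t)) → MvPowerSeries (Fin (N + (k t + k t))) ℂ)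
    (hφ : ∀ t, IsCoord (φ t)) (r : Fin m → ℕ) (hr : ∀ t, 1 ≤ r t)
    (v : ∀ t, Fin (r t) → Fin (N + (k t + k t)) → ℕ) (a : ∀ t, Fin (r t) → ℂ)
    (hv : ∀ t, Function.Injective (v t)) (hv0 : ∀ t j, v t j ≠ 0)
    (hnd : ∀ t, NondegC (v t) (a t))
    (hg : ∀ t, (MvPolynomial.aeval (φ t) (stab f (k t)) :
      MvPowerSeries (Fin (N + (k t + k t))) ℂ) =
        ((sparse (v t) (a t) : MvPolynomial (Fin (N + (k t + k t))) ℂ) :
          MvPowerSeries (Fin (N + (k t + k t))) ℂ))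
    (R : ∀ t, SmoothFan (N + (k t + k t))) (hR : ∀ t, Principal (v t) (R t)) (e : ℕ)
    (he : 1 ≤ e) (c c' : ℤ) (χ : Fin m → ℤ) (s0 : ℂ) (hre : s0.re < 0)
    (hs : (glue e c c' χ fun t => unstab (k t) e
      (topZetaTwistedLocal (v t) (R t) e)).denom.eval s0 = 0) :
    ∃ i : ℕ, b.eval (s0 - i) = 0 := by
  by_contra hcon
  push Not at hcon
  have hb1 := root_neg_one f hf b hb
  refine (reg_glue e c c' χ _ s0 (fun _ h => ?_) fun t => ?_).denom hs
  · have h1 := hcon 0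
    rw [h, Nat.cast_zero, sub_zero] at h1
    exact h1 hb1
  · exact stab_reg (loc := False) f b hb0 hb1 (unitEq_of_global _ _ hb) (k t) (φ t) (hφ t)
      (fun h => h.elim) (hr t) (v t) (a t) (hv t) (hv0 t) (hnd t) (hg t) (R t) (hR t) e he s0
      hre hcon

end Pool.Agent.Y229.RE
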