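import Pool.Agent.Y229.RE.Main

set_option autoImplicit false

/-! Stably nondegenerate germs of polynomials: the global theorem. -/

namespace Pool.Agent.Y229.RE

open Pool.Agent.H628R4.TZ Pool.Agent.H628R4.TP Pool.Agent.W425.SM
  Pool.Agent.W425.SG Pool.Agent.W422.GC Pool.Agent.W425.ND Pool.Agent.Y229.CF Pool.Agent.Y229.GL

variable {N : ℕ}

/-- `f(p + x)` -/
noncomputable def trans (p : Fin N → ℂ) (f : MvPolynomial (Fin N) ℂ) : MvPolynomial (Fin N) ℂ :=
  MvPolynomial.aeval (fun i => MvPolynomial.C (p i) + MvPolynomial.X i) f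

lemma trans_const (p : Fin N → ℂ) (f : MvPolynomial (Fin N) ℂ) :
    MvPolynomial.constantCoeff (trans p f) = MvPolynomial.eval p f := by
  unfold trans
  have h6 := MvPolynomial.comp_aeval_apply (R := ℂ)
    (f := fun i => (MvPolynomial.C (p i) + MvPolynomial.X i : MvPolynomial (Fin N) ℂ))
    (φ := MvPolynomial.aeval (fun _ => (0 : ℂ))) f
  have h7 : ∀ q : MvPolynomial (Fin N) ℂ, MvPolynomial.constantCoeff q =
      MvPolynomial.aeval (fun _ => (0 : ℂ)) q := by
    intro q
    rw [MvPolynomial.aeval_eq_eval, MvPolynomial.eval_zero']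
  have h8 : (fun i => (MvPolynomial.aeval (fun _ => (0 : ℂ)))
      (MvPolynomial.C (p i) + MvPolynomial.X i : MvPolynomial (Fin N) ℂ)) = p := by
    funext i
    simp
  rw [h7, h6, h8, MvPolynomial.aeval_eq_eval]

lemma trans_ne_zero (p : Fin N → ℂ) {f : MvPolynomial (Fin N) ℂ} (hf : f ≠ 0) :
    trans p f ≠ 0 := by
  intro h0
  apply hf
  have h9 : Function.Injective (MvPolynomial.aeval (fun i => MvPolynomial.C (p i) +
      MvPolynomial.X i : Fin N → MvPolynomial (Fin N) ℂ) :
        MvPolynomial (Fin N) ℂ → MvPolynomial (Fin N) ℂ) := by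
    refine Function.LeftInverse.injective (g := MvPolynomial.aeval
      (fun i => MvPolynomial.X i - MvPolynomial.C (p i) : Fin N → MvPolynomial (Fin N) ℂ)) ?_
    intro q
    rw [MvPolynomial.comp_aeval_apply]
    conv_rhs => rw [← MvPolynomial.aeval_X_left_apply q]
    congr 2
    funext i
    simp
  exact h9 (by rw [map_zero]; exact h0)

lemma trans_local (p : Fin N → ℂ) {f : MvPolynomial (Fin N) ℂ} {b : Polynomial ℂ}
    (hb : IsBFunction f b) : Pool.Agent.H628R4.TP.IsLocalBFunction (trans p f) b :=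
  formal_local hb (coord_shift p) (coe_aeval _ f)

/-- **Polynomials on affine space whose germs are stably nondegenerate.** -/
theorem global_stab' {m : ℕ} (f : MvPolynomial (Fin N) ℂ) (hf : f.totalDegree ≠ 0)
    (b : Polynomial ℂ) (hb0 : b ≠ 0) (hb : IsBFunction f b) (p : Fin m → Fin N → ℂ)
    (hp : ∀ t, MvPolynomial.eval (p t) f = 0) (k r : Fin m → ℕ) (hr : ∀ t, 1 ≤ r t)
    (v : ∀ t, Fin (r t) → Fin (N + (k t + k t)) → ℕ)
    (hv : ∀ t, StabNondeg (trans (p t) f) (k t) (v t))
    (R : ∀ t, SmoothFan (N + (k t + k t))) (hR : ∀ t, Principal (v t) (R t))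
    (c c' : ℤ) (χ : Fin m → ℤ) (s0 : ℂ) (hre : s0.re < 0)
    (hs : (glue 1 c c' χ fun t => unstab (k t) 1
      (topZetaGLocal (v t) (R t))).denom.eval s0 = 0) :
    ∃ i : ℕ, b.eval (s0 - i) = 0 := by
  by_contra hcon
  push Not at hcon
  have hb1 := root_neg_one f hf b hb
  have hf0 : f ≠ 0 := by
    rintro rfl
    exact hf MvPolynomial.totalDegree_zero
  refine (reg_glue 1 c c' χ _ s0 (fun _ h => ?_) fun t => ?_).denom hs
  · have h1 := hcon 0
    rw [h, Nat.cast_zero, sub_zero] at h1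
    exact h1 hb1
  · have h1 := local_stab (trans (p t) f) (trans_ne_zero _ hf0) (by rw [trans_const, hp t]) b hb0
      (trans_local (p t) hb) (k t) (hr t) (v t) (hv t) (R t) (hR t) 1 le_rfl s0 hre hcon
    rwa [tw_one] at h1

end Pool.Agent.Y229.RE
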