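import Pool.Agent.W425.SG.Defs

set_option autoImplicit false

/-! The functional equation of `f + ∑ y_i z_i`. -/

namespace Pool.Agent.Y229.RE

open MvPolynomial Pool.Agent.H628R4.TP Pool.Agent.W425.SG

variable {N M : ℕ}

/-- the sequences `∑_m s ^ m Q_m (g ^ (s + 1))` -/
def WW (g : MvPolynomial (Fin M) ℂ) (F : ℕ → MvPolynomial (Fin M) ℂ) : Prop :=
  ∃ L : List (ℕ × weylS (Fin M)), ∀ s : ℕ, F s = (L.map fun x => ((s : ℂ) ^ x.1) •
    (x.2 : Module.End ℂ (MvPolynomial (Fin M) ℂ)) (g ^ (s + 1))).sum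

variable {g : MvPolynomial (Fin M) ℂ} {F G : ℕ → MvPolynomial (Fin M) ℂ}

lemma WW.base (g : MvPolynomial (Fin M) ℂ) : WW g (fun s => g ^ (s + 1)) :=
  ⟨[(0, 1)], fun s => by simp⟩

lemma WW.zero (g : MvPolynomial (Fin M) ℂ) : WW g (fun _ => 0) := ⟨[], fun s => by simp⟩

lemma WW.add (hF : WW g F) (hG : WW g G) : WW g (fun s => F s + G s) := by
  obtain ⟨L, hL⟩ := hF
  obtain ⟨L', hL'⟩ := hG
  refine ⟨L ++ L', fun s => ?_⟩
  show F s + G s = _
  rw [hL, hL', List.map_append, List.sum_append]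

lemma WW.sum {ι : Type} (S : Finset ι) (H : ι → ℕ → MvPolynomial (Fin M) ℂ)
    (h : ∀ i ∈ S, WW g (H i)) : WW g (fun s => ∑ i ∈ S, H i s) := by
  classical
  induction S using Finset.induction_on with
  | empty => simpa using WW.zero g
  | insert a S ha ih =>
    have h1 := (h a (Finset.mem_insert_self a S)).add
      (ih fun i hi => h i (Finset.mem_insert_of_mem hi))
    convert h1 using 2 with s
    rw [Finset.sum_insert ha]

lemma WW.op (hF : WW g F) (Q : Module.End ℂ (MvPolynomial (Fin M) ℂ)) (hQ : Q ∈ weylS (Fin M)) :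
    WW g (fun s => Q (F s)) := by
  obtain ⟨L, hL⟩ := hF
  refine ⟨L.map fun x => (x.1, ⟨Q, hQ⟩ * x.2), fun s => ?_⟩
  show Q (F s) = _
  rw [hL, map_list_sum, List.map_map, List.map_map]
  congr 1
  refine List.map_congr_left fun x _ => ?_
  simp only [Function.comp_apply, map_smul]
  rfl

lemma WW.smulS (hF : WW g F) : WW g (fun s => (s : ℂ) • F s) := by
  obtain ⟨L, hL⟩ := hF
  refine ⟨L.map fun x => (x.1 + 1, x.2), fun s => ?_⟩
  show (s : ℂ) • F s = _
  rw [hL, List.smul_sum, List.map_map, List.map_map]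
  congr 1
  refine List.map_congr_left fun x _ => ?_
  simp only [Function.comp_apply, smul_smul, pow_succ]
  rw [mul_comm]

lemma WW.smulC (hF : WW g F) (c : ℂ) : WW g (fun s => c • F s) := by
  have h1 := hF.op (algebraMap ℂ _ c) (Subalgebra.algebraMap_mem _ c)
  simpa using h1

lemma WW.toFinsupp (hF : WW g F) : ∃ P : ℕ →₀ weylS (Fin M), ∀ s : ℕ,
    F s = P.sum fun m Q => ((s : ℂ) ^ m) •
      (Q : Module.End ℂ (MvPolynomial (Fin M) ℂ)) (g ^ (s + 1)) := by
  obtain ⟨L, hL⟩ := hF
  suffices H : ∃ P : ℕ →₀ weylS (Fin M), ∀ s : ℕ, (L.map fun x => ((s : ℂ) ^ x.1) •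
      (x.2 : Module.End ℂ (MvPolynomial (Fin M) ℂ)) (g ^ (s + 1))).sum =
      P.sum fun m Q => ((s : ℂ) ^ m) •
        (Q : Module.End ℂ (MvPolynomial (Fin M) ℂ)) (g ^ (s + 1)) by
    obtain ⟨P, hP⟩ := H
    exact ⟨P, fun s => by rw [hL, hP]⟩
  clear hL
  induction L with
  | nil => exact ⟨0, fun s => by simp⟩
  | cons x L ih =>
    obtain ⟨P, hP⟩ := ih
    refine ⟨Finsupp.single x.1 x.2 + P, fun s => ?_⟩
    rw [List.map_cons, List.sum_cons, hP, Finsupp.sum_add_index' (by simp) (by
      intro m Q Q'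
      simp), Finsupp.sum_single_index (by simp)]

/-- the partial derivatives are in the Weyl algebra -/
lemma pd_mem (i : Fin M) : ((pderiv i : Derivation ℂ (MvPolynomial (Fin M) ℂ)
    (MvPolynomial (Fin M) ℂ)) : MvPolynomial (Fin M) ℂ →ₗ[ℂ] MvPolynomial (Fin M) ℂ) ∈
      weylS (Fin M) := Algebra.subset_adjoin (Or.inr ⟨i, rfl⟩)

/-- the multiplications are in the Weyl algebra -/
lemma mul_mem (p : MvPolynomial (Fin M) ℂ) : LinearMap.mulLeft ℂ p ∈ weylS (Fin M) := by
  induction p using MvPolynomial.induction_on with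
  | C c =>
    have e : LinearMap.mulLeft ℂ (C c : MvPolynomial (Fin M) ℂ) = algebraMap ℂ _ c := by
      refine LinearMap.ext fun h => ?_
      rw [LinearMap.mulLeft_apply, Module.algebraMap_end_apply, C_mul']
    rw [e]
    exact Subalgebra.algebraMap_mem _ c
  | add p q hp hq =>
    have e : LinearMap.mulLeft ℂ (p + q) = LinearMap.mulLeft ℂ p + LinearMap.mulLeft ℂ q := by
      refine LinearMap.ext fun h => ?_
      simp [add_mul]
    rw [e]
    exact Subalgebra.add_mem _ hp hq
  | mul_X p i hp =>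
    have e : LinearMap.mulLeft ℂ (p * X i) = LinearMap.mulLeft ℂ p * LinearMap.mulLeft ℂ (X i) := by
      refine LinearMap.ext fun h => ?_
      simp
    rw [e]
    exact Subalgebra.mul_mem _ hp (Algebra.subset_adjoin (Or.inl ⟨i, rfl⟩))

/-- Operators in the variables `x` extend. -/
lemma extend {ι : Fin N → Fin M} (hι : Function.Injective ι)
    (P : Module.End ℂ (MvPolynomial (Fin N) ℂ)) (hP : P ∈ weylS (Fin N)) :
    ∃ P' : Module.End ℂ (MvPolynomial (Fin M) ℂ), P' ∈ weylS (Fin M) ∧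
      ∀ (u : MvPolynomial (Fin N) ℂ) (m : MvPolynomial (Fin M) ℂ),
        (∀ i, pderiv (ι i) m = 0) → P' (rename ι u * m) = rename ι (P u) * m := by
  unfold weylS at hP
  induction hP using Algebra.adjoin_induction with
  | mem P hP =>
    rcases hP with ⟨i, rfl⟩ | ⟨i, rfl⟩
    · refine ⟨LinearMap.mulLeft ℂ (X (ι i)), mul_mem _, fun u m _ => ?_⟩
      rw [LinearMap.mulLeft_apply, LinearMap.mulLeft_apply, map_mul, rename_X, mul_assoc]
    · refine ⟨_, pd_mem (ι i), fun u m hm => ?_⟩
      show pderiv (ι i) (rename ι u * m) = rename ι (pderiv i u) * m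
      rw [Derivation.leibniz, hm i, smul_zero, zero_add, smul_eq_mul, pderiv_rename hι, mul_comm]
  | algebraMap c =>
    refine ⟨algebraMap ℂ _ c, Subalgebra.algebraMap_mem _ c, fun u m _ => ?_⟩
    rw [Module.algebraMap_end_apply, Module.algebraMap_end_apply, map_smul, smul_mul_assoc]
  | add P Q _ _ hP hQ =>
    obtain ⟨P', h1, h2⟩ := hP
    obtain ⟨Q', h3, h4⟩ := hQ
    refine ⟨P' + Q', Subalgebra.add_mem _ h1 h3, fun u m hm => ?_⟩
    rw [LinearMap.add_apply, h2 u m hm, h4 u m hm, LinearMap.add_apply, map_add, add_mul]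
  | mul P Q _ _ hP hQ =>
    obtain ⟨P', h1, h2⟩ := hP
    obtain ⟨Q', h3, h4⟩ := hQ
    refine ⟨P' * Q', Subalgebra.mul_mem _ h1 h3, fun u m hm => ?_⟩
    rw [Module.End.mul_apply, h4 u m hm, h2 _ m hm, Module.End.mul_apply]

/-- an eigenvector -/
lemma aeval_eig {V : Type} [AddCommGroup V] [Module ℂ V] (T : Module.End ℂ V) (x : V) (μ : ℂ)
    (h : T x = μ • x) (B : Polynomial ℂ) : Polynomial.aeval T B x = B.eval μ • x := by
  induction B using Polynomial.induction_on' with
  | add p q hp hq => rw [map_add, LinearMap.add_apply, hp, hq, Polynomial.eval_add, add_smul]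
  | monomial n c =>
    have h1 : ∀ n : ℕ, (T ^ n) x = μ ^ n • x := by
      intro n
      induction n with
      | zero => simp
      | succ n ih => rw [pow_succ', Module.End.mul_apply, ih, map_smul, h, smul_smul, pow_succ]
    rw [Polynomial.aeval_monomial, Polynomial.eval_monomial, Module.End.mul_apply, h1,
      Module.algebraMap_end_apply, smul_smul]

variable {k : ℕ}

/-- `∑ y_i ∂_{y_i}` -/
noncomputable def Th (y : Fin k → Fin M) : Module.End ℂ (MvPolynomial (Fin M) ℂ) :=
  ∑ i, LinearMap.mulLeft ℂ (X (y i)) *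
    ((pderiv (y i) : Derivation ℂ (MvPolynomial (Fin M) ℂ) (MvPolynomial (Fin M) ℂ)) :
      MvPolynomial (Fin M) ℂ →ₗ[ℂ] MvPolynomial (Fin M) ℂ)

lemma Th_mem (y : Fin k → Fin M) : Th y ∈ weylS (Fin M) :=
  Subalgebra.sum_mem _ fun i _ => Subalgebra.mul_mem _ (mul_mem _) (pd_mem _)

lemma Th_apply (y : Fin k → Fin M) (u : MvPolynomial (Fin M) ℂ) :
    Th y u = ∑ i, X (y i) * pderiv (y i) u := by
  unfold Th
  rw [LinearMap.sum_apply]
  rfl

lemma Th_mul (y : Fin k → Fin M) (u w : MvPolynomial (Fin M) ℂ) :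
    Th y (u * w) = u * Th y w + Th y u * w := by
  rw [Th_apply, Th_apply, Th_apply, Finset.mul_sum, Finset.sum_mul, ← Finset.sum_add_distrib]
  refine Finset.sum_congr rfl fun i _ => ?_
  rw [Derivation.leibniz, smul_eq_mul, smul_eq_mul]
  ring

/-- `∑ y_i z_i` -/
noncomputable def qq (y z : Fin k → Fin M) : MvPolynomial (Fin M) ℂ := ∑ i, X (y i) * X (z i)

/-- the three sets of variables are disjoint -/
structure Sep (ι : Fin N → Fin M) (y z : Fin k → Fin M) : Prop where
  i1 : Function.Injective ι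
  i2 : Function.Injective y
  i3 : Function.Injective z
  n1 : ∀ i j, ι i ≠ y j
  n2 : ∀ i j, ι i ≠ z j
  n3 : ∀ i j, y i ≠ z j

variable {ι : Fin N → Fin M} {y z : Fin k → Fin M}

lemma pd_y (h : Sep ι y z) (i : Fin k) : pderiv (y i) (qq y z) = X (z i) := by
  classical
  unfold qq
  rw [map_sum, Finset.sum_eq_single i]
  · rw [Derivation.leibniz, pderiv_X_self, pderiv_X_of_ne (h.n3 i i).symm, smul_zero, smul_eq_mul,
      zero_add, mul_one]
  · intro j _ hj
    rw [Derivation.leibniz, pderiv_X_of_ne (fun e => hj (h.i2 e)),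
      pderiv_X_of_ne (h.n3 i j).symm, smul_zero, smul_zero, add_zero]
  · intro hi
    exact absurd (Finset.mem_univ i) hi

lemma pd_z (h : Sep ι y z) (i : Fin k) : pderiv (z i) (qq y z) = X (y i) := by
  classical
  unfold qq
  rw [map_sum, Finset.sum_eq_single i]
  · rw [Derivation.leibniz, pderiv_X_self, pderiv_X_of_ne (h.n3 i i), smul_zero, smul_eq_mul,
      add_zero, mul_one]
  · intro j _ hj
    rw [Derivation.leibniz, pderiv_X_of_ne (fun e => hj (h.i3 e)),
      pderiv_X_of_ne (h.n3 j i), smul_zero, smul_zero, add_zero]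
  · intro hi
    exact absurd (Finset.mem_univ i) hi

lemma pd_x (h : Sep ι y z) (i : Fin N) : pderiv (ι i) (qq y z) = 0 := by
  unfold qq
  rw [map_sum]
  refine Finset.sum_eq_zero fun j _ => ?_
  rw [Derivation.leibniz, pderiv_X_of_ne (h.n1 i j).symm, pderiv_X_of_ne (h.n2 i j).symm,
    smul_zero, smul_zero, add_zero]

lemma pd_rn {j : Fin M} (hj : ∀ i, ι i ≠ j) (u : MvPolynomial (Fin N) ℂ) :
    pderiv j (rename ι u) = 0 := by
  induction u using MvPolynomial.induction_on with
  | C c => rw [rename_C, pderiv_C]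
  | add p q hp hq => rw [map_add, map_add, hp, hq, add_zero]
  | mul_X p i hp => rw [map_mul, rename_X, Derivation.leibniz, hp, pderiv_X_of_ne (hj i),
      smul_zero, smul_zero, add_zero]

lemma Th_q (h : Sep ι y z) : Th y (qq y z) = qq y z := by
  rw [Th_apply]
  conv_rhs => unfold qq
  exact Finset.sum_congr rfl fun _ _ => by rw [pd_y h]

lemma Th_rn (h : Sep ι y z) (u : MvPolynomial (Fin N) ℂ) : Th y (rename ι u) = 0 := by
  rw [Th_apply]
  exact Finset.sum_eq_zero fun i _ => by rw [pd_rn (fun j => h.n1 j i), mul_zero]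

lemma Th_eig (h : Sep ι y z) (u : MvPolynomial (Fin N) ℂ) (j : ℕ) :
    Th y (rename ι u * qq y z ^ j) = (j : ℂ) • (rename ι u * qq y z ^ j) := by
  have h1 : Th y (qq y z ^ j) = (j : ℂ) • (qq y z ^ j) := by
    induction j with
    | zero =>
      rw [pow_zero, Nat.cast_zero, zero_smul, Th_apply]
      exact Finset.sum_eq_zero fun i _ => by rw [pderiv_one, mul_zero]
    | succ j ih =>
      rw [pow_succ, Th_mul, ih, Th_q h, smul_mul_assoc, Nat.cast_succ, add_smul, one_smul, add_comm]
  rw [Th_mul, Th_rn h, h1, zero_mul, add_zero, mul_smul_comm]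

/-- `s - ∑ y_i ∂_{y_i}` -/
noncomputable def TT (y : Fin k → Fin M) (s : ℂ) : Module.End ℂ (MvPolynomial (Fin M) ℂ) :=
  algebraMap ℂ _ s - Th y

lemma TT_eig (h : Sep ι y z) (s : ℂ) (u : MvPolynomial (Fin N) ℂ) (j : ℕ) :
    TT y s (rename ι u * qq y z ^ j) = (s - j) • (rename ι u * qq y z ^ j) := by
  unfold TT
  rw [LinearMap.sub_apply, Th_eig h, Module.algebraMap_end_apply, sub_smul]

lemma WW.T (hF : WW g F)
    (y : Fin k → Fin M) (B : Polynomial ℂ) :
    WW g (fun s => Polynomial.aeval (TT y (s : ℂ)) B (F s)) := by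
  have h1 : ∀ {F : ℕ → MvPolynomial (Fin M) ℂ}, WW g F → WW g (fun s => TT y (s : ℂ) (F s)) := by
    intro F hF
    have h2 := hF.smulS.add ((hF.op (Th y) (Th_mem y)).smulC (-1))
    convert h2 using 2 with s
    unfold TT
    rw [LinearMap.sub_apply, Module.algebraMap_end_apply, neg_one_smul, sub_eq_add_neg]
  have h3 : ∀ n : ℕ, WW g (fun s => (TT y (s : ℂ) ^ n) (F s)) := by
    intro n
    induction n with
    | zero => simpa using hF
    | succ n ih =>
      convert h1 ih using 2 with s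
      rw [pow_succ', Module.End.mul_apply]
  induction B using Polynomial.induction_on' with
  | add p q hp hq =>
    convert hp.add hq using 2 with s
    rw [map_add, LinearMap.add_apply]
  | monomial n c =>
    convert (h3 n).smulC c using 2 with s
    rw [Polynomial.aeval_monomial, Module.End.mul_apply, Module.algebraMap_end_apply]

lemma pow_expand (ι : Fin N → Fin M) (y z : Fin k → Fin M) (f a : MvPolynomial (Fin N) ℂ) (s : ℕ) :
    rename ι a * (rename ι f + qq y z) ^ s =
      ∑ j ∈ Finset.range (s + 1), ((s.choose j : ℕ) : ℂ) • (rename ι (a * f ^ (s - j)) *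
        qq y z ^ j) := by
  rw [add_comm, add_pow, Finset.mul_sum]
  refine Finset.sum_congr rfl fun j _ => ?_
  rw [map_mul, map_pow, smul_eq_C_mul, map_natCast]
  ring

/-- the first part of the functional equation -/
lemma main1 (h : Sep ι y z) (f a : MvPolynomial (Fin N) ℂ) (b : Polynomial ℂ)
    (P : ℕ →₀ weylS (Fin N)) (hP : ∀ s : ℕ, C (b.eval (s : ℂ)) * a * f ^ s =
      P.sum fun m Q => ((s : ℂ) ^ m) • (Q : Module.End ℂ (MvPolynomial (Fin N) ℂ)) (f ^ (s + 1))) :
    WW (rename ι f + qq y z) (fun s => ((s : ℂ) + 1) •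
      Polynomial.aeval (TT y (s : ℂ)) b (rename ι a * (rename ι f + qq y z) ^ s)) := by
  classical
  have hex := fun m => extend h.i1 ((P m : weylS (Fin N)) :
    Module.End ℂ (MvPolynomial (Fin N) ℂ)) (P m).2
  choose P' hP' hP'' using hex
  have h1 : WW (rename ι f + qq y z) (fun s => ∑ m ∈ P.support, P' m
      (Polynomial.aeval (TT y (s : ℂ)) (Polynomial.X ^ m * (Polynomial.X + 1) : Polynomial ℂ)
        ((rename ι f + qq y z) ^ (s + 1)))) :=
    WW.sum _ _ fun m _ => ((WW.base _).T y _).op _ (hP' m)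
  convert h1 using 2 with s
  have hq0 : ∀ j i, pderiv (ι i) (qq y z ^ j) = 0 := by
    intro j i
    rw [Derivation.leibniz_pow, pd_x h, smul_zero, smul_zero]
  -- left side
  have hL : ∀ j ∈ Finset.range (s + 1), Polynomial.aeval (TT y (s : ℂ)) b
      (((s.choose j : ℕ) : ℂ) • (rename ι (a * f ^ (s - j)) * qq y z ^ j)) =
      ∑ m ∈ P.support, ((s.choose j : ℕ) : ℂ) • (((s : ℂ) - j) ^ m) •
        (rename ι ((P m : Module.End ℂ (MvPolynomial (Fin N) ℂ)) (f ^ (s + 1 - j))) *
          qq y z ^ j) := by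
    intro j hj
    have hjs : j ≤ s := by rw [Finset.mem_range] at hj; omega
    rw [map_smul, aeval_eig _ _ _ (TT_eig h (s : ℂ) _ j)]
    have h2 := hP (s - j)
    have hc : ((s - j : ℕ) : ℂ) = (s : ℂ) - j := by push_cast [hjs]; ring
    rw [hc, show s - j + 1 = s + 1 - j by omega] at h2
    have h3 : b.eval ((s : ℂ) - j) • (rename ι (a * f ^ (s - j)) * qq y z ^ j) =
        rename ι (C (b.eval ((s : ℂ) - j)) * a * f ^ (s - j)) * qq y z ^ j := by
      rw [smul_eq_C_mul, mul_assoc (C (b.eval ((s : ℂ) - j))) a,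
        map_mul (rename ι) (C (b.eval ((s : ℂ) - j))) (a * f ^ (s - j)), rename_C, mul_assoc]
    rw [h3, h2, Finsupp.sum, map_sum, Finset.sum_mul, Finset.smul_sum]
    refine Finset.sum_congr rfl fun m _ => ?_
    rw [map_smul, smul_mul_assoc]
  rw [pow_expand ι y z f a s, map_sum, Finset.sum_congr rfl hL, Finset.smul_sum]
  -- right side
  have hR : ∀ m : ℕ, P' m (Polynomial.aeval (TT y (s : ℂ))
      (Polynomial.X ^ m * (Polynomial.X + 1) : Polynomial ℂ)
      ((rename ι f + qq y z) ^ (s + 1))) = ∑ j ∈ Finset.range (s + 1),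
        (((s : ℂ) + 1) * ((s.choose j : ℕ) : ℂ)) • (((s : ℂ) - j) ^ m) •
        (rename ι ((P m : Module.End ℂ (MvPolynomial (Fin N) ℂ)) (f ^ (s + 1 - j))) *
          qq y z ^ j) := by
    intro m
    have h4 := pow_expand ι y z f 1 (s + 1)
    rw [map_one, one_mul] at h4
    rw [h4, map_sum, map_sum, Finset.sum_range_succ]
    have h5 : ∀ j, P' m (Polynomial.aeval (TT y (s : ℂ))
        (Polynomial.X ^ m * (Polynomial.X + 1) : Polynomial ℂ)
        ((((s + 1).choose j : ℕ) : ℂ) • (rename ι (1 * f ^ (s + 1 - j)) * qq y z ^ j))) =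
        ((((s + 1).choose j : ℕ) : ℂ) * (((s : ℂ) - j) ^ m * ((s : ℂ) - j + 1))) •
          (rename ι ((P m : Module.End ℂ (MvPolynomial (Fin N) ℂ)) (f ^ (s + 1 - j))) *
            qq y z ^ j) := by
      intro j
      rw [map_smul, map_smul, aeval_eig _ _ _ (TT_eig h (s : ℂ) _ j), map_smul, one_mul,
        hP'' m _ _ (hq0 j), smul_smul]
      simp
    rw [h5 (s + 1)]
    have h6 : (((s + 1).choose (s + 1) : ℕ) : ℂ) * (((s : ℂ) - ((s + 1 : ℕ) : ℂ)) ^ m *
        ((s : ℂ) - ((s + 1 : ℕ) : ℂ) + 1)) = 0 := by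
      push_cast
      ring
    rw [h6, zero_smul, add_zero]
    refine Finset.sum_congr rfl fun j hj => ?_
    have hjs : j ≤ s := by rw [Finset.mem_range] at hj; omega
    rw [h5 j, smul_smul]
    congr 1
    have h7 : (((s + 1).choose j : ℕ) : ℂ) * ((s : ℂ) - j + 1) =
        ((s.choose j : ℕ) : ℂ) * ((s : ℂ) + 1) := by
      have h8 := Nat.choose_mul_succ_eq s j
      have h9 : ((s.choose j * (s + 1) : ℕ) : ℂ) = (((s + 1).choose j * (s + 1 - j) : ℕ) : ℂ) := by
        rw [h8]
      have hc : ((s + 1 - j : ℕ) : ℂ) = (s : ℂ) - j + 1 := by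
        rw [Nat.cast_sub (by omega)]; push_cast; ring
      rw [Nat.cast_mul, Nat.cast_mul, hc, Nat.cast_succ] at h9
      exact h9.symm
    linear_combination (((s : ℂ) - j) ^ m) * h7
  simp only [hR]
  rw [Finset.sum_comm]
  refine Finset.sum_congr rfl fun j _ => ?_
  rw [Finset.smul_sum]
  refine Finset.sum_congr rfl fun m _ => ?_
  rw [smul_smul ((s : ℂ) + 1)]

lemma main_E (h : Sep ι y z) (f a : MvPolynomial (Fin N) ℂ) :
    WW (rename ι f + qq y z) (fun s => ((s : ℂ) + 1) •
      ((k : ℂ) • (rename ι a * (rename ι f + qq y z) ^ s) +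
        Th y (rename ι a * (rename ι f + qq y z) ^ s))) := by
  set g := rename ι f + qq y z with hg
  have hgz : ∀ i, pderiv (z i) g = X (y i) := fun i => by
    rw [hg, map_add, pd_rn (fun j => h.n2 j i), pd_z h, zero_add]
  have h1 : WW g (fun s => ∑ i : Fin k, pderiv (y i) (pderiv (z i)
      (rename ι a * g ^ (s + 1)))) := by
    refine WW.sum _ _ fun i _ => ?_
    exact (((WW.base g).op _ (mul_mem (rename ι a))).op _ (pd_mem (z i))).op _ (pd_mem (y i))
  convert h1 using 2 with s
  have h2 : ∀ i : Fin k, pderiv (y i) (pderiv (z i) (rename ι a * g ^ (s + 1))) =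
      ((s : ℂ) + 1) • (rename ι a * g ^ s + X (y i) * pderiv (y i) (rename ι a * g ^ s)) := by
    intro i
    have h3 : pderiv (z i) (rename ι a * g ^ (s + 1)) =
        ((s : ℂ) + 1) • (X (y i) * (rename ι a * g ^ s)) := by
      rw [Derivation.leibniz, pd_rn (fun j => h.n2 j i), smul_zero, add_zero,
        Derivation.leibniz_pow, hgz, smul_eq_mul, smul_eq_mul, Nat.add_sub_cancel, nsmul_eq_mul,
        smul_eq_C_mul, map_add, map_one, map_natCast]
      push_cast
      ring
    rw [h3, Derivation.map_smul, Derivation.leibniz, pderiv_X_self, smul_eq_mul, smul_eq_mul,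
      mul_one]
    congr 1
    ring
  rw [Finset.sum_congr rfl fun i _ => h2 i, ← Finset.smul_sum, Finset.sum_add_distrib, Th_apply,
    Finset.sum_const, Finset.card_univ, Fintype.card_fin, ← Nat.cast_smul_eq_nsmul ℂ]

lemma main2 (h : Sep ι y z) (f a : MvPolynomial (Fin N) ℂ) (B : Polynomial ℂ) :
    WW (rename ι f + qq y z) (fun s => ((s : ℂ) + 1) •
      (B.eval ((s : ℂ) + k) • (rename ι a * (rename ι f + qq y z) ^ s) -
        Polynomial.aeval (TT y (s : ℂ)) B (rename ι a * (rename ι f + qq y z) ^ s))) := by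
  set g := rename ι f + qq y z with hg
  have h1 : ∀ n : ℕ, WW g (fun s => ((s : ℂ) + 1) •
      (((s : ℂ) + k) ^ n • (rename ι a * g ^ s) - (TT y (s : ℂ) ^ n) (rename ι a * g ^ s))) := by
    intro n
    induction n with
    | zero => simpa using WW.zero g
    | succ n ih =>
      have h2 := ((ih.smulS).add (ih.smulC (k : ℂ))).add
        ((main_E h f a).T y (Polynomial.X ^ n))
      rw [← hg] at h2
      convert h2 using 2 with s
      rw [map_pow, Polynomial.aeval_X]
      have h3 : (k : ℂ) • (rename ι a * g ^ s) + Th y (rename ι a * g ^ s) =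
          ((s : ℂ) + k) • (rename ι a * g ^ s) - TT y (s : ℂ) (rename ι a * g ^ s) := by
        unfold TT
        rw [LinearMap.sub_apply, Module.algebraMap_end_apply, add_smul]
        abel
      rw [h3, map_smul, map_sub, map_smul, pow_succ (TT y (s : ℂ)), Module.End.mul_apply, pow_succ]
      module
  induction B using Polynomial.induction_on' with
  | add p q hp hq =>
    convert hp.add hq using 2 with s
    rw [map_add, LinearMap.add_apply, Polynomial.eval_add]
    module
  | monomial n c =>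
    convert (h1 n).smulC c using 2 with s
    rw [Polynomial.aeval_monomial, Module.End.mul_apply, Module.algebraMap_end_apply,
      Polynomial.eval_monomial]
    module

/-- **The functional equation of `f + ∑ y_i z_i`.** -/
theorem unitEq_stab (h : Sep ι y z) (loc : Prop) (f : MvPolynomial (Fin N) ℂ) (b : Polynomial ℂ)
    (hb : UnitEq loc f b) : UnitEq loc (rename ι f + qq y z)
      ((Polynomial.X + 1) * b.comp (Polynomial.X + Polynomial.C (k : ℂ))) := by
  obtain ⟨a, P, h1, h2, hP⟩ := hb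
  have h3 := ((main1 h f a b P hP).add (main2 h f a b)).toFinsupp
  obtain ⟨P', hP'⟩ := h3
  refine ⟨rename ι a, P', ?_, fun hl => by rw [h2 hl, map_one], fun s => ?_⟩
  · rw [constantCoeff_rename, h1]
  · rw [← hP' s, Polynomial.eval_mul, Polynomial.eval_add, Polynomial.eval_X, Polynomial.eval_one,
      Polynomial.eval_comp, Polynomial.eval_add, Polynomial.eval_X, Polynomial.eval_C, mul_assoc,
      ← smul_eq_C_mul]
    module

end Pool.Agent.Y229.RE
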