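import Pool.Agent.Y229.RE.Loc
import Pool.Agent.Y229.CF.CayC

set_option autoImplicit false

/-! Functions on smooth complete intersections: the re-embedded case. -/

namespace Pool.Agent.Y229.RE

open MvPolynomial
open Pool.Agent.W425.ND (onFace)
open Pool.Agent.W423.NI (onFaceI)
open Pool.Agent.W749.JI (fam)
open Pool.Agent.W425.SM (sparse)
open Pool.Agent.Y229.CF (NondegIC NondegC)
open Pool.Agent.Y229.GL (IsCoord)

variable {N k r : ℕ}

/-- the variable `x_i` -/
def xv (k : ℕ) (i : Fin N) : Fin (N + (k + k)) := Fin.castAdd (k + k) i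
/-- the variable `y_i` -/
def yv (N : ℕ) (i : Fin k) : Fin (N + (k + k)) := Fin.natAdd N (Fin.castAdd k i)
/-- the variable `z_i` -/
def zv (N : ℕ) (i : Fin k) : Fin (N + (k + k)) := Fin.natAdd N (Fin.natAdd k i)

/-- The exponents of `F + ∑ y_i l_i` in the variables `x, y, z`: `m j` in `x, z`, and `y_i` if the
`j`-th monomial belongs to `l_i`. -/
def ex (π : Fin r → Fin (k + 1)) (m : Fin r → Fin (N + k) → ℕ) (j : Fin r) :
    Fin (N + (k + k)) → ℕ :=
  Fin.append (fun i => m j (Fin.castAdd k i)) (Fin.append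
    (fun i : Fin k => if π j = i.succ then 1 else 0) (fun i => m j (Fin.natAdd N i)))

lemma ex_x (π : Fin r → Fin (k + 1)) (m : Fin r → Fin (N + k) → ℕ) (j : Fin r) (i : Fin N) :
    ex π m j (xv k i) = m j (Fin.castAdd k i) := by
  unfold ex xv
  rw [Fin.append_left]

lemma ex_y (π : Fin r → Fin (k + 1)) (m : Fin r → Fin (N + k) → ℕ) (j : Fin r) (i : Fin k) :
    ex π m j (yv N i) = if π j = i.succ then 1 else 0 := by
  unfold ex yv
  rw [Fin.append_right, Fin.append_left]

lemma ex_z (π : Fin r → Fin (k + 1)) (m : Fin r → Fin (N + k) → ℕ) (j : Fin r) (i : Fin k) :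
    ex π m j (zv N i) = m j (Fin.natAdd N i) := by
  unfold ex zv
  rw [Fin.append_right, Fin.append_right]

/-- `0, w(y_1), …` -/
def WY {A : Type} (o : A) (w : Fin (N + (k + k)) → A) (i : Fin (k + 1)) : A :=
  Fin.cases o (fun i => w (yv N i)) i

/-- the coordinates in `x, z` -/
def XZ {A : Type} (w : Fin (N + (k + k)) → A) (i : Fin (N + k)) : A :=
  Fin.addCases (fun i => w (xv k i)) (fun i => w (zv N i)) i

lemma XZ_l {A : Type} (w : Fin (N + (k + k)) → A) (i : Fin N) :
    XZ w (Fin.castAdd k i) = w (xv k i) := by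
  unfold XZ
  rw [Fin.addCases_left]

lemma XZ_r {A : Type} (w : Fin (N + (k + k)) → A) (i : Fin k) :
    XZ w (Fin.natAdd N i) = w (zv N i) := by
  unfold XZ
  rw [Fin.addCases_right]

lemma sum_ex (π : Fin r → Fin (k + 1)) (m : Fin r → Fin (N + k) → ℕ)
    (w : Fin (N + (k + k)) → ℝ) (j : Fin r) :
    ∑ i, w i * (ex π m j i : ℝ) = ∑ i, XZ w i * (m j i : ℝ) + WY 0 w (π j) := by
  classical
  rw [Fin.sum_univ_add, Fin.sum_univ_add, Fin.sum_univ_add]
  have h1 : ∑ i : Fin k, w (Fin.natAdd N (Fin.castAdd k i)) *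
      (ex π m j (Fin.natAdd N (Fin.castAdd k i)) : ℝ) = WY 0 w (π j) := by
    have h2 : ∀ i : Fin k, w (Fin.natAdd N (Fin.castAdd k i)) *
        (ex π m j (Fin.natAdd N (Fin.castAdd k i)) : ℝ) =
        if π j = i.succ then WY 0 w (π j) else 0 := by
      intro i
      have h3 := ex_y π m j i
      unfold yv at h3
      rw [h3]
      split_ifs with h
      · rw [h]
        show _ = w (yv N i)
        unfold yv
        simp
      · simp
    rw [Finset.sum_congr rfl fun i _ => h2 i]
    rcases Fin.eq_zero_or_eq_succ (π j) with h | ⟨i0, h⟩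
    · rw [h]
      simp only [(Fin.succ_ne_zero _).symm, if_false, Finset.sum_const_zero]
      rfl
    · rw [h]
      simp only [Fin.succ_inj]
      simp
  have h4 : ∀ i : Fin N, w (Fin.castAdd (k + k) i) * (ex π m j (Fin.castAdd (k + k) i) : ℝ) =
      XZ w (Fin.castAdd k i) * (m j (Fin.castAdd k i) : ℝ) := fun i => by
    have h5 := ex_x π m j i
    unfold xv at h5
    rw [XZ_l, h5]
    rfl
  have h6 : ∀ i : Fin k, w (Fin.natAdd N (Fin.natAdd k i)) *
      (ex π m j (Fin.natAdd N (Fin.natAdd k i)) : ℝ) =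
      XZ w (Fin.natAdd N i) * (m j (Fin.natAdd N i) : ℝ) := fun i => by
    have h5 := ex_z π m j i
    unfold zv at h5
    rw [XZ_r, h5]
    rfl
  rw [h1, Finset.sum_congr rfl fun i _ => h4 i, Finset.sum_congr rfl fun i _ => h6 i]
  ring

lemma prod_ex {A : Type} [CommRing A] (π : Fin r → Fin (k + 1)) (m : Fin r → Fin (N + k) → ℕ)
    (z : Fin (N + (k + k)) → A) (j : Fin r) :
    ∏ i, z i ^ ex π m j i = (∏ i, XZ z i ^ m j i) * WY 1 z (π j) := by
  classical
  rw [Fin.prod_univ_add, Fin.prod_univ_add, Fin.prod_univ_add]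
  have h1 : ∏ i : Fin k, z (Fin.natAdd N (Fin.castAdd k i)) ^
      ex π m j (Fin.natAdd N (Fin.castAdd k i)) = WY 1 z (π j) := by
    have h2 : ∀ i : Fin k, z (Fin.natAdd N (Fin.castAdd k i)) ^
        ex π m j (Fin.natAdd N (Fin.castAdd k i)) =
        if π j = i.succ then WY 1 z (π j) else 1 := by
      intro i
      have h3 := ex_y π m j i
      unfold yv at h3
      rw [h3]
      split_ifs with h
      · rw [h]
        show _ = z (yv N i)
        unfold yv
        simp
      · simp
    rw [Finset.prod_congr rfl fun i _ => h2 i]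
    rcases Fin.eq_zero_or_eq_succ (π j) with h | ⟨i0, h⟩
    · rw [h]
      simp only [(Fin.succ_ne_zero _).symm, if_false, Finset.prod_const_one]
      rfl
    · rw [h]
      simp only [Fin.succ_inj]
      simp
  have h4 : ∀ i : Fin N, z (Fin.castAdd (k + k) i) ^ (ex π m j (Fin.castAdd (k + k) i)) =
      XZ z (Fin.castAdd k i) ^ (m j (Fin.castAdd k i)) := fun i => by
    have h5 := ex_x π m j i
    unfold xv at h5
    rw [XZ_l, h5]
    rfl
  have h6 : ∀ i : Fin k, z (Fin.natAdd N (Fin.natAdd k i)) ^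
      (ex π m j (Fin.natAdd N (Fin.natAdd k i))) =
      XZ z (Fin.natAdd N i) ^ (m j (Fin.natAdd N i)) := fun i => by
    have h5 := ex_z π m j i
    unfold zv at h5
    rw [XZ_r, h5]
    rfl
  rw [h1, Finset.prod_congr rfl fun i _ => h4 i, Finset.prod_congr rfl fun i _ => h6 i]
  ring

theorem embC (π : Fin r → Fin (k + 1)) (m : Fin r → Fin (N + k) → ℕ) (c : Fin r → ℂ)
    (hr : 0 < r) (hnd : NondegIC π m c) : NondegC (ex π m) c := by
  classical
  intro w' hw' z hz
  rintro ⟨heq0, heq⟩
  set w : Fin (N + k) → ℝ := XZ w' with hw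
  set x : Fin (N + k) → ℂ := XZ z with hx
  set y : Fin (k + 1) → ℂ := WY 1 z with hy
  have hy0 : ∀ i, y i ≠ 0 := by
    intro i
    rw [hy]
    refine Fin.cases ?_ (fun i => ?_) i
    · exact one_ne_zero
    · exact hz _
  set K : Finset (Fin (k + 1)) := Finset.univ.filter
    (fun i => ∃ j, π j = i ∧ onFace (ex π m) w' j) with hK
  have hface : ∀ j, onFace (ex π m) w' j ↔ ∀ j',
      ∑ i, w i * (m j i : ℝ) + WY 0 w' (π j) ≤
      ∑ i, w i * (m j' i : ℝ) + WY 0 w' (π j') := by
    intro j
    unfold onFace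
    apply forall_congr'
    intro j'
    rw [sum_ex, sum_ex]
  have hiff : ∀ j, (π j ∈ K ∧ onFaceI π m w j) ↔ onFace (ex π m) w' j := by
    intro j
    constructor
    · rintro ⟨h1, h2⟩
      rw [hK, Finset.mem_filter] at h1
      obtain ⟨-, j0, h3, h4⟩ := h1
      rw [hface] at h4 ⊢
      intro j'
      have h5 := h2 j0 h3
      have h6 := h4 j'
      rw [h3] at h6
      linarith
    · intro h
      refine ⟨?_, ?_⟩
      · rw [hK, Finset.mem_filter]
        exact ⟨Finset.mem_univ _, j, rfl, h⟩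
      · rw [hface] at h
        intro j' hj'
        have := h j'
        rw [hj'] at this
        linarith
  have hKne : K.Nonempty := by
    have : Nonempty (Fin r) := ⟨⟨0, hr⟩⟩
    obtain ⟨j0, hj0⟩ := Finite.exists_min (fun j => ∑ i, w i * (m j i : ℝ) + WY 0 w' (π j))
    refine ⟨π j0, ?_⟩
    rw [hK, Finset.mem_filter]
    exact ⟨Finset.mem_univ _, j0, rfl, (hface j0).2 hj0⟩
  -- the sums over the groups
  set S : Fin (k + 1) → ℂ := fun i =>
    ∑ j, (if π j = i ∧ onFaceI π m w j then c j * ∏ v, x v ^ m j v else 0) with hS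
  have hwpos : ∀ i, 0 < w i := by
    intro i
    rw [hw]
    refine Fin.addCases (fun i => ?_) (fun i => ?_) i
    · rw [XZ_l]; exact hw' _
    · rw [XZ_r]; exact hw' _
  have hxne : ∀ i, x i ≠ 0 := by
    intro i
    rw [hx]
    refine Fin.addCases (fun i => ?_) (fun i => ?_) i
    · rw [XZ_l]; exact hz _
    · rw [XZ_r]; exact hz _
  have hsucc : ∀ i : Fin k, i.succ ∈ K → S i.succ = 0 := by
    intro i hi
    have h1 := heq (yv N i)
    have h2 : (∑ j, if onFace (ex π m) w' j then
          c j * ((ex π m j (yv N i) : ℕ) : ℂ) * ∏ i, z i ^ ex π m j i else 0) =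
        y i.succ * S i.succ := by
      rw [hS, Finset.mul_sum]
      apply Finset.sum_congr rfl
      intro j _
      rw [ex_y, prod_ex]
      by_cases hj : π j = i.succ
      · have h3 : onFace (ex π m) w' j ↔ onFaceI π m w j := by
          rw [← hiff j, hj]
          exact ⟨fun h => h.2, fun h => ⟨hi, h⟩⟩
        by_cases hf : onFaceI π m w j
        · rw [if_pos (h3.2 hf), if_pos (show π j = i.succ ∧ onFaceI π m w j from ⟨hj, hf⟩),
            if_pos hj, hj, hy]
          push_cast
          ring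
        · rw [if_neg (fun h => hf (h3.1 h)), if_neg (fun h => hf h.2), mul_zero]
      · rw [if_neg (fun h : π j = i.succ ∧ onFaceI π m w j => hj h.1), if_neg hj]
        simp
    rw [h2] at h1
    rcases mul_eq_zero.1 h1 with h3 | h3
    · exact absurd h3 (hy0 _)
    · exact h3
  have hgrp : ∀ (u : Fin r → ℂ), (∑ j, if onFace (ex π m) w' j then u j * (∏ v, x v ^ m j v) *
      y (π j) else 0) = ∑ i ∈ K, y i *
        (∑ j, if π j = i ∧ onFaceI π m w j then u j * ∏ v, x v ^ m j v else 0) := by
    intro u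
    simp only [Finset.mul_sum]
    rw [Finset.sum_comm]
    apply Finset.sum_congr rfl
    intro j _
    by_cases hf : onFace (ex π m) w' j
    · obtain ⟨h3, h4⟩ := (hiff j).2 hf
      rw [if_pos hf, Finset.sum_eq_single (π j)]
      · rw [if_pos ⟨rfl, h4⟩]
        ring
      · intro i _ hi
        rw [if_neg (fun h => hi h.1.symm), mul_zero]
      · intro h
        exact absurd h3 h
    · rw [if_neg hf]
      symm
      apply Finset.sum_eq_zero
      intro i hi
      rw [if_neg, mul_zero]
      rintro ⟨h3, h4⟩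
      apply hf
      rw [← hiff j, h3]
      exact ⟨hi, h4⟩
  have hzero : ∀ i ∈ K, S i = 0 := by
    intro i hi
    rcases Fin.eq_zero_or_eq_succ i with h | ⟨i', rfl⟩
    · subst h
      have h1 := hgrp c
      have h2 : (∑ j, if onFace (ex π m) w' j then c j * (∏ v, x v ^ m j v) *
          y (π j) else 0) = 0 := by
        refine Eq.trans (Finset.sum_congr rfl fun j _ => ?_) heq0
        rw [prod_ex, mul_assoc]
      rw [h2, Finset.sum_eq_single (0 : Fin (k + 1))] at h1
      · have h3 : y 0 = 1 := rfl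
        rw [h3, one_mul] at h1
        exact h1.symm
      · intro i hi' hne
        rcases Fin.eq_zero_or_eq_succ i with h | ⟨i', rfl⟩
        · exact absurd h hne
        · rw [show (∑ j, if π j = i'.succ ∧ onFaceI π m w j then c j * ∏ v, x v ^ m j v else 0) =
            S i'.succ from rfl, hsucc i' hi', mul_zero]
      · intro h
        exact absurd hi h
    · exact hsucc i' hi
  refine hnd w hwpos K x y hKne hxne (fun i _ => hy0 i) hzero ?_
  intro v
  have h1 := hgrp (fun j => c j * (m j v : ℂ))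
  rw [← h1]
  have h2 : ∃ v', ∀ j, ex π m j v' = m j v := by
    refine Fin.addCases (fun i => ?_) (fun i => ?_) v
    · exact ⟨xv k i, fun j => ex_x π m j i⟩
    · exact ⟨zv N i, fun j => ex_z π m j i⟩
  obtain ⟨v', hv'⟩ := h2
  refine Eq.trans (Finset.sum_congr rfl fun j _ => ?_) (heq v')
  rw [prod_ex, hv' j, mul_assoc (c j * (m j v : ℂ))]

end Pool.Agent.Y229.RE
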